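import Pool.Agent.Helper37.KD.DefsC
import Pool.Agent.Helper37.KD.St.G2
import Pool.Agent.Helper37.KD.St.G3
import Pool.Agent.Helper37.KD.St.B2
import Pool.Agent.Helper37.KD.St.D3
import Pool.Agent.Helper37.KD.St.D4
import Pool.Agent.Helper37.KD.St.B4

/-! KD Part I, piece G4 (helper45) -/

namespace KD.I.G4

open Finset

theorem sum_window (f : ℕ → ℝ) (hf : ∀ m, 0 ≤ f m) (T τ c : ℕ) (hc : c ≤ 1) :
    ∑ p ∈ range (T - τ), ∑ m ∈ Ico p (p + τ), f (m + c) ≤ τ * ∑ m ∈ range T, f m := by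
  have h1 : ∑ p ∈ range (T - τ), ∑ m ∈ Ico p (p + τ), f (m + c) =
      ∑ i ∈ range τ, ∑ p ∈ range (T - τ), f (p + i + c) := by
    rw [Finset.sum_comm]
    refine Finset.sum_congr rfl (fun p _ => ?_)
    rw [Finset.sum_Ico_eq_sum_range]
    have : p + τ - p = τ := by omega
    rw [this]
  rw [h1]
  have h2 : ∀ i ∈ range τ, ∑ p ∈ range (T - τ), f (p + i + c) ≤ ∑ m ∈ range T, f m := by
    intro i hi
    rw [Finset.mem_range] at hi
    have e : ∑ p ∈ range (T - τ), f (p + i + c) = ∑ m ∈ Ico (i + c) (i + c + (T - τ)), f m := by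
      rw [Finset.sum_Ico_eq_sum_range]
      have : i + c + (T - τ) - (i + c) = T - τ := by omega
      rw [this]
      refine Finset.sum_congr rfl (fun p _ => ?_)
      congr 1; omega
    rw [e]
    rcases Nat.lt_or_ge T τ with h | h
    · have : T - τ = 0 := by omega
      rw [this]
      simp only [add_zero, Finset.Ico_self, Finset.sum_empty]
      exact Finset.sum_nonneg (fun m _ => hf m)
    · refine Finset.sum_le_sum_of_subset_of_nonneg ?_ (fun m _ _ => hf m)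
      intro m hm
      simp only [Finset.mem_Ico, Finset.mem_range] at hm ⊢
      omega
  refine (Finset.sum_le_card_nsmul _ _ _ h2).trans ?_
  simp

theorem sum_split (X : ℕ → ℝ) (h2 : ∀ n, X n ≤ 2) (T τ : ℕ) :
    ∑ n ∈ range T, X n ≤ 2 * τ + ∑ p ∈ range (T - τ), X (p + τ) := by
  rcases Nat.lt_or_ge T τ with h | h
  · have e : T - τ = 0 := by omega
    rw [e]
    simp only [Finset.range_zero, Finset.sum_empty, add_zero]
    refine (Finset.sum_le_card_nsmul _ _ _ (fun n _ => h2 n)).trans ?_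
    simp only [Finset.card_range, nsmul_eq_mul]
    have : (T : ℝ) ≤ τ := by exact_mod_cast h.le
    linarith only [this]
  · obtain ⟨m, rfl⟩ := Nat.exists_eq_add_of_le h
    rw [Finset.sum_range_add]
    have e : τ + m - τ = m := by omega
    rw [e]
    have h3 : ∑ x ∈ range m, X (τ + x) = ∑ p ∈ range m, X (p + τ) :=
      Finset.sum_congr rfl (fun p _ => by rw [add_comm])
    rw [h3]
    have h4 : ∑ n ∈ range τ, X n ≤ 2 * τ := by
      refine (Finset.sum_le_card_nsmul _ _ _ (fun n _ => h2 n)).trans ?_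
      simp only [Finset.card_range, nsmul_eq_mul]
      linarith only []
    linarith only [h4]

theorem sum_shift_le (I : ℕ → ℝ) (hI : ∀ n, 0 ≤ I n) (T τ : ℕ) :
    ∑ p ∈ range (T - τ), I (p + τ) ≤ ∑ n ∈ range T, I n := by
  rcases Nat.lt_or_ge T τ with h | h
  · have e : T - τ = 0 := by omega
    rw [e]
    simp only [Finset.range_zero, Finset.sum_empty]
    exact Finset.sum_nonneg (fun n _ => hI n)
  · obtain ⟨m, rfl⟩ := Nat.exists_eq_add_of_le h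
    rw [Finset.sum_range_add]
    have e : τ + m - τ = m := by omega
    rw [e]
    have h3 : ∑ x ∈ range m, I (τ + x) = ∑ p ∈ range m, I (p + τ) :=
      Finset.sum_congr rfl (fun p _ => by rw [add_comm])
    rw [h3]
    have := Finset.sum_nonneg (fun n (_ : n ∈ range τ) => hI n)
    linarith only [this]

theorem sum_trunc_le (I : ℕ → ℝ) (hI : ∀ n, 0 ≤ I n) (T τ : ℕ) :
    ∑ p ∈ range (T - τ), I p ≤ ∑ n ∈ range T, I n := by
  refine Finset.sum_le_sum_of_subset_of_nonneg ?_ (fun m _ _ => hI m)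
  intro m hm
  simp only [Finset.mem_range] at hm ⊢
  omega

/-- weighted Cauchy–Schwarz for the geometric sum of scales -/
theorem scale_cs (k : ℕ) (Y : ℕ → ℝ) (hY : ∀ j ≤ k, 0 ≤ Y j) :
    (∑ j ∈ range (k + 1), √(Y j)) ^ 2 / (2 ^ k) ^ 2 ≤
      2 * ∑ j ∈ range (k + 1), 2 ^ j / 2 ^ k * (Y j / (2 ^ j) ^ 2) := by
  have h1 : (∑ j ∈ range (k + 1), √(Y j)) ^ 2 ≤
      (∑ j ∈ range (k + 1), (2 : ℝ) ^ j) * ∑ j ∈ range (k + 1), Y j / 2 ^ j := by
    refine Finset.sum_sq_le_sum_mul_sum_of_sq_le_mul _ (fun j _ => by positivity)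
      (fun j hj => ?_) (fun j hj => le_of_eq ?_)
    · rw [Finset.mem_range] at hj
      exact div_nonneg (hY j (by omega)) (by positivity)
    · rw [Finset.mem_range] at hj
      rw [Real.sq_sqrt (hY j (by omega))]
      field_simp
  have h2 : (∑ j ∈ range (k + 1), (2 : ℝ) ^ j) ≤ 2 * 2 ^ k := by
    have := geom_sum_eq (x := (2 : ℝ)) (by norm_num) (k + 1)
    rw [this, pow_succ]
    have : (0 : ℝ) < 2 ^ k := by positivity
    norm_num
    linarith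
  have h3 : 0 ≤ ∑ j ∈ range (k + 1), Y j / 2 ^ j := by
    refine Finset.sum_nonneg (fun j hj => ?_)
    rw [Finset.mem_range] at hj
    exact div_nonneg (hY j (by omega)) (by positivity)
  rw [div_le_iff₀ (by positivity)]
  refine h1.trans ((mul_le_mul_of_nonneg_right h2 h3).trans (le_of_eq ?_))
  rw [mul_assoc, mul_assoc, Finset.mul_sum, Finset.sum_mul]
  congr 1
  refine Finset.sum_congr rfl (fun j _ => ?_)
  field_simp

/-- even window length -/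
theorem exists_tau {x : ℝ} (hx : 8 ≤ x) : ∃ τ : ℕ, Even τ ∧ x / 2 ≤ τ ∧ (τ : ℝ) ≤ x := by
  refine ⟨2 * ⌊x / 2⌋₊, even_two_mul _, ?_, ?_⟩
  · have := Nat.lt_floor_add_one (x / 2)
    push_cast
    linarith only [hx, this]
  · have := Nat.floor_le (show 0 ≤ x / 2 by linarith only [hx])
    push_cast
    linarith

/-- the final bookkeeping -/
theorem book {C2 C3 CK3 M t tK ε τ T SI SJ SX0 SB SY D2 XX pk : ℝ}
    (hC2 : 0 < C2) (hC3 : 0 < C3) (hCK3 : 0 < CK3) (hM : 1 ≤ M) (ht : 1 ≤ t) (htK : t ≤ tK)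
    (hε : 0 < ε) (hε1 : ε ≤ 1) (hτ0 : 0 ≤ τ) (hτ : ε * τ ≤ √M * t) (hT0 : 0 ≤ T)
    (hT : T * ε ≤ 2 * tK) (hSI : 0 ≤ SI) (hIJ : SI ≤ SJ)
    (hpk : 0 < pk)
    (hSB : SB = SY * pk ^ 2 / (M / ε * pk * t) ^ 2) (hSY : 0 ≤ SY)
    (hD2 : D2 ≤ C3 * τ * (τ * (ε ^ 2 / t * SJ) + τ * SB + τ * (T * (CK3 * ε ^ 4))) + C3 * ε * (τ * SI))
    (hXX : XX ≤ 2 * τ + (C2 * M * t * (SI + SI) + C2 * D2 + C2 / M * SX0)) (hSX0 : 0 ≤ SX0) :
    ε * XX ≤ (2 + 2 * C2 + 2 * C2 * C3) * M * t * (ε * SJ)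
      + (2 + 2 * C2 + 2 * C2 * C3) / M * (ε * SX0)
      + C2 * C3 / M * (ε * SY)
      + (2 + 2 * C2 + 2 * C2 * C3) * √M * t
      + C2 * C3 * CK3 * (M * tK ^ 2) * (2 * tK) * ε := by
  have hM0 : 0 < M := by linarith only [hM]
  have ht0 : 0 < t := by linarith only [ht]
  have hsM : √M * √M = M := Real.mul_self_sqrt hM0.le
  have hsM1 : 1 ≤ √M := by rw [Real.one_le_sqrt]; exact hM
  have hsMM : √M ≤ M := by nlinarith only [hM, hsM, hsM1]
  have hετ0 : 0 ≤ ε * τ := by positivity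
  have hSJ : 0 ≤ SJ := hSI.trans hIJ
  have hsq : (ε * τ) ^ 2 ≤ M * t ^ 2 := by
    calc (ε * τ) ^ 2 ≤ (√M * t) ^ 2 := pow_le_pow_left₀ hετ0 hτ 2
      _ = (√M * √M) * t ^ 2 := by ring
      _ = M * t ^ 2 := by rw [hsM]
  -- the four terms of `ε * D2`
  have T1 : ε * (C3 * τ * (τ * (ε ^ 2 / t * SJ))) ≤ C3 * (M * t) * (ε * SJ) := by
    calc ε * (C3 * τ * (τ * (ε ^ 2 / t * SJ))) = C3 * ((ε * τ) ^ 2 / t) * (ε * SJ) := by ring
      _ ≤ C3 * (M * t ^ 2 / t) * (ε * SJ) := by gcongr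
      _ = _ := by field_simp
  have T2 : ε * (C3 * τ * (τ * SB)) ≤ C3 / M * (ε * SY) := by
    have e : ε * (C3 * τ * (τ * SB)) = C3 * ((ε * τ) ^ 2 / (M ^ 2 * t ^ 2)) * (ε * SY) := by
      rw [hSB]; field_simp
    rw [e]
    calc C3 * ((ε * τ) ^ 2 / (M ^ 2 * t ^ 2)) * (ε * SY)
        ≤ C3 * (M * t ^ 2 / (M ^ 2 * t ^ 2)) * (ε * SY) := by gcongr
      _ = _ := by field_simp
  have T3 : ε * (C3 * τ * (τ * (T * (CK3 * ε ^ 4)))) ≤ C3 * CK3 * (M * tK ^ 2) * (2 * tK) * ε := by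
    have h1 : M * t ^ 2 ≤ M * tK ^ 2 := by gcongr
    have h2 : ε ^ 2 ≤ ε := by nlinarith only [hε, hε1]
    have h3 : 0 ≤ T * ε := by positivity
    calc ε * (C3 * τ * (τ * (T * (CK3 * ε ^ 4)))) = C3 * CK3 * (ε * τ) ^ 2 * (T * ε) * ε ^ 2 := by ring
      _ ≤ C3 * CK3 * (M * tK ^ 2) * (2 * tK) * ε := by
        have h4 : (ε * τ) ^ 2 ≤ M * tK ^ 2 := hsq.trans h1
        have h5 : 0 < tK := by linarith only [ht, htK]
        gcongr
  have T4 : ε * (C3 * ε * (τ * SI)) ≤ C3 * (M * t) * (ε * SJ) := by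
    calc ε * (C3 * ε * (τ * SI)) = C3 * (ε * τ) * (ε * SI) := by ring
      _ ≤ C3 * (√M * t) * (ε * SJ) := by gcongr
      _ ≤ C3 * (M * t) * (ε * SJ) := by gcongr
  have hD : ε * D2 ≤ 2 * (C3 * (M * t) * (ε * SJ)) + C3 / M * (ε * SY)
      + C3 * CK3 * (M * tK ^ 2) * (2 * tK) * ε := by
    have := mul_le_mul_of_nonneg_left hD2 hε.le
    have e : ε * (C3 * τ * (τ * (ε ^ 2 / t * SJ) + τ * SB + τ * (T * (CK3 * ε ^ 4))) + C3 * ε * (τ * SI))
      = ε * (C3 * τ * (τ * (ε ^ 2 / t * SJ))) + ε * (C3 * τ * (τ * SB))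
        + ε * (C3 * τ * (τ * (T * (CK3 * ε ^ 4)))) + ε * (C3 * ε * (τ * SI)) := by ring
    rw [e] at this
    linarith only [T1, T2, T3, T4, this]
  have hX := mul_le_mul_of_nonneg_left hXX hε.le
  have e : ε * (2 * τ + (C2 * M * t * (SI + SI) + C2 * D2 + C2 / M * SX0)) =
      2 * (ε * τ) + 2 * (C2 * M * t * (ε * SI)) + C2 * (ε * D2) + C2 / M * (ε * SX0) := by ring
  rw [e] at hX
  have h6 : C2 * M * t * (ε * SI) ≤ C2 * M * t * (ε * SJ) := by gcongr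
  have h7 := mul_le_mul_of_nonneg_left hD hC2.le
  have h8 : 0 ≤ ε * SX0 / M := by positivity
  have h9 : 0 ≤ √M * t := by positivity
  have h10 : 0 ≤ M * t * (ε * SJ) := by positivity
  have h11 : 0 ≤ C2 * (√M * t) := by positivity
  have h12 : 0 ≤ C2 * C3 * (√M * t) := by positivity
  have h13 : 0 ≤ C2 * (ε * SX0 / M) := by positivity
  have h14 : 0 ≤ C2 * C3 * (ε * SX0 / M) := by positivity
  have e2 : (2 + 2 * C2 + 2 * C2 * C3) * M * t * (ε * SJ)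
      + (2 + 2 * C2 + 2 * C2 * C3) / M * (ε * SX0)
      + C2 * C3 / M * (ε * SY)
      + (2 + 2 * C2 + 2 * C2 * C3) * √M * t
      + C2 * C3 * CK3 * (M * tK ^ 2) * (2 * tK) * ε =
      2 * (M * t * (ε * SJ)) + 2 * (C2 * M * t * (ε * SJ)) + 2 * (C2 * (C3 * (M * t) * (ε * SJ)))
      + (2 * (ε * SX0 / M) + 2 * (C2 * (ε * SX0 / M)) + 2 * (C2 * C3 * (ε * SX0 / M)))
      + C2 * (C3 / M * (ε * SY))
      + (2 * (√M * t) + 2 * (C2 * (√M * t)) + 2 * (C2 * C3 * (√M * t)))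
      + C2 * (C3 * CK3 * (M * tK ^ 2) * (2 * tK) * ε) := by ring
  have e3 : C2 / M * (ε * SX0) = C2 * (ε * SX0 / M) := by ring
  rw [e2]
  rw [e3] at hX
  linarith only [hτ, hX, h6, h7, h8, h10, h11, h12, h13, h14]

/-- I.6 averaged: `avg f = ε ∑_{n<T} f(μ^n)` -/
theorem x_average (s lam Lam c0 C0 C1 : ℝ) (d : ℕ) (hd : 1 ≤ d) (hs : 0 < s) (hs1 : s < 1)
    (hlam : 0 < lam) (hLam : lam ≤ Lam) (hc0 : 0 < c0) (hC0 : 0 < C0) (hC1 : 0 < C1) :
    ∃ C : ℝ, 0 < C ∧ ∀ (M : ℝ) (K : ℕ), 1 ≤ M → ∃ CK ε0 : ℝ, 0 < CK ∧ 0 < ε0 ∧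
    ∀ (E : Env d s c0 C0 C1), E.K = K → E.M = M → E.ε ≤ ε0 →
    ∀ (M0 : ℝ) (a : ℕ → ℕ → E.Θ → E.G → ℝ), (∀ n, E.S.Coef lam Lam M0 (a n)) →
    ∀ T : ℕ, (T : ℝ) * E.ε ≤ 2 * tim s K → ∀ k, k + 1 ≤ K →
      E.ε * ∑ n ∈ range T, E.Xk (E.chain a n) (k + 1) ≤
        C * M * tim s k * (E.ε * ∑ n ∈ range T, (E.Ik (E.chain a n) k + E.Ek (a n) (E.chain a n) k
            + if k = 0 then 0 else E.Ik (E.chain a n) (k - 1) + E.Ek (a n) (E.chain a n) (k - 1)))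
        + C / M * (E.ε * ∑ n ∈ range T, E.Xk (E.chain a n) k)
        + C / M * ∑ j ∈ range (k + 1), 2 ^ j / 2 ^ k *
            (E.ε * ∑ n ∈ range T, E.Yk (E.chain a n) j / (2 ^ j) ^ 2)
        + C * √M * tim s k + CK * E.ε := by
  obtain ⟨C2, hC2, H2⟩ := x_var s c0 C0 C1 d hd hs hs1 hc0
  obtain ⟨C3, hC3, H3⟩ := drift_chain s lam Lam c0 C0 C1 d hd hs hs1 hlam hLam hC0 hC1
  refine ⟨2 + 2 * C2 + 2 * C2 * C3, by positivity, ?_⟩
  intro M K hM
  obtain ⟨CK3, ε3, hCK3, hε3, H3⟩ := H3 K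
  obtain ⟨ε4, hε4, H4⟩ := chain_isP s lam Lam c0 C0 C1 d hs hlam hLam hC0 K
  have htK0 := tim_pos s K
  have hM0 : 0 < M := by linarith only [hs, hs1, hM]
  refine ⟨C2 * C3 * CK3 * (M * tim s K ^ 2) * (2 * tim s K), min ε3 ε4, by positivity,
    lt_min hε3 hε4, ?_⟩
  intro E hEK hEM hε M0 a ha T hT k hk
  subst hEK
  subst hEM
  have hε' := E.hε
  have hε1 := E.hε1
  have hP : ∀ n, IsP (E.chain a n) := H4 E rfl (hε.trans (min_le_right _ _)) M0 a ha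
  have hD := H3 E rfl (hε.trans (min_le_left _ _)) M0 a ha k (by omega)
  have ht1 : 1 ≤ tim s k := one_le_tim hs k
  have ht0 := tim_pos s k
  have htk : tim s k ≤ tim s E.K := tim_le_tim hs (by omega)
  have hsM1 : 1 ≤ √E.M := by rw [Real.one_le_sqrt]; exact hM
  have hx8 : 8 ≤ √E.M * tim s k / E.ε := by
    rw [le_div_iff₀ hε']
    nlinarith only [hε1, ht1, hsM1, hε']
  obtain ⟨τ, hτe, hτ1, hτ2⟩ := exists_tau hx8
  have hτ1' : √E.M * tim s k / (2 * E.ε) ≤ τ := by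
    refine le_trans (le_of_eq ?_) hτ1
    field_simp
  have hετ : E.ε * τ ≤ √E.M * tim s k := by
    rw [le_div_iff₀ hε'] at hτ2
    linarith only [hτ2]
  -- abbreviations
  obtain ⟨I, hI⟩ : ∃ I : ℕ → ℝ, I = fun n => E.Ik (E.chain a n) k := ⟨_, rfl⟩
  obtain ⟨J, hJ⟩ : ∃ J : ℕ → ℝ, J = fun n => (E.Ik (E.chain a n) k + E.Ek (a n) (E.chain a n) k
            + if k = 0 then 0 else E.Ik (E.chain a n) (k - 1) + E.Ek (a n) (E.chain a n) (k - 1)) :=
    ⟨_, rfl⟩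
  obtain ⟨B, hB⟩ : ∃ B : ℕ → ℝ, B = fun n =>
    (∑ j ∈ range (k + 1), √(E.Yk (E.chain a n) j)) ^ 2 / E.R k ^ 2 := ⟨_, rfl⟩
  have hI0 : ∀ n, 0 ≤ I n := fun n => by rw [hI]; exact Ik_nonneg E (hP n) (by omega)
  have hIJ : ∀ n, I n ≤ J n := fun n => by
    rw [hI, hJ]
    have h1 := Ek_nonneg E (a n) (hP n) (k := k) (by omega)
    have h2 : 0 ≤ if k = 0 then 0 else E.Ik (E.chain a n) (k - 1)
        + E.Ek (a n) (E.chain a n) (k - 1) := by
      split_ifs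
      · exact le_refl _
      · exact add_nonneg (Ik_nonneg E (hP n) (by omega)) (Ek_nonneg E (a n) (hP n) (by omega))
    simp only
    linarith only [h1, h2]
  have hJ0 : ∀ n, 0 ≤ J n := fun n => (hI0 n).trans (hIJ n)
  have hB0 : ∀ n, 0 ≤ B n := fun n => by rw [hB]; positivity
  have hX0 : ∀ n, 0 ≤ E.Xk (E.chain a n) k := fun n => Xk_nonneg E _ (by omega)
  have hY0 : ∀ n, ∀ j ≤ k, 0 ≤ E.Yk (E.chain a n) j := fun n j hj => Yk_nonneg E _ (by omega)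
  obtain ⟨δ, hδ⟩ : ∃ δ : ℕ → ℝ, δ = fun p => ∑ z, (√(lev E.q (E.chain a (p + τ)) (k + 1) z)
      - √(lev E.q (E.chain a p) (k + 1) (Am τ z))) ^ 2 := ⟨_, rfl⟩
  -- the drift bound
  have hδ1 : ∀ p, δ p ≤ C3 * τ * ∑ m ∈ Ico p (p + τ), (E.ε ^ 2 / tim s k * J m + B (m + 1)
      + CK3 * E.ε ^ 4) + C3 * E.ε * ∑ m ∈ Ico p (p + τ), I m := by
    intro p
    rw [hδ, hJ, hB, hI]
    exact hD p τ
  have hDsum : ∑ p ∈ range (T - τ), δ p ≤ C3 * τ * (τ * (E.ε ^ 2 / tim s k * ∑ n ∈ range T, J n)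
      + τ * (∑ n ∈ range T, B n) + τ * (T * (CK3 * E.ε ^ 4)))
      + C3 * E.ε * (τ * ∑ n ∈ range T, I n) := by
    refine (Finset.sum_le_sum (fun p _ => hδ1 p)).trans ?_
    rw [Finset.sum_add_distrib, ← Finset.mul_sum, ← Finset.mul_sum]
    have w1 := sum_window (fun m => E.ε ^ 2 / tim s k * J m)
      (fun m => mul_nonneg (by positivity) (hJ0 m)) T τ 0 (by omega)
    have w2 := sum_window B hB0 T τ 1 (by omega)
    have w3 := sum_window (fun _ => CK3 * E.ε ^ 4) (fun m => by positivity) T τ 0 (by omega)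
    have w4 := sum_window I hI0 T τ 0 (by omega)
    simp only [add_zero] at w1 w3 w4
    rw [← Finset.mul_sum] at w1
    rw [Finset.sum_const (s := range T), Finset.card_range, nsmul_eq_mul] at w3
    have e : ∑ p ∈ range (T - τ), ∑ m ∈ Ico p (p + τ), (E.ε ^ 2 / tim s k * J m + B (m + 1)
      + CK3 * E.ε ^ 4) = ∑ p ∈ range (T - τ), ∑ m ∈ Ico p (p + τ), E.ε ^ 2 / tim s k * J m
      + ∑ p ∈ range (T - τ), ∑ m ∈ Ico p (p + τ), B (m + 1)
      + ∑ p ∈ range (T - τ), ∑ m ∈ Ico p (p + τ), CK3 * E.ε ^ 4 := by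
      rw [← Finset.sum_add_distrib, ← Finset.sum_add_distrib]
      refine Finset.sum_congr rfl (fun p _ => ?_)
      rw [← Finset.sum_add_distrib, ← Finset.sum_add_distrib]
    rw [e]
    have hτ0 : (0 : ℝ) ≤ τ := Nat.cast_nonneg _
    gcongr
  -- the x-variation
  have hXsum : ∑ n ∈ range T, E.Xk (E.chain a n) (k + 1) ≤ 2 * τ +
      (C2 * E.M * tim s k * (∑ n ∈ range T, I n + ∑ n ∈ range T, I n)
        + C2 * ∑ p ∈ range (T - τ), δ p + C2 / E.M * ∑ n ∈ range T, E.Xk (E.chain a n) k) := by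
    refine (sum_split (fun n => E.Xk (E.chain a n) (k + 1)) (fun n => Xk_le_two E (hP n) hk) T τ).trans ?_
    refine add_le_add (le_refl _) ?_
    have h1 : ∀ p ∈ range (T - τ), E.Xk (E.chain a (p + τ)) (k + 1) ≤
        C2 * E.M * tim s k * (I (p + τ) + I p) + C2 * δ p
          + C2 / E.M * E.Xk (E.chain a (p + τ)) k := by
      intro p _
      rw [hI, hδ]
      exact H2 E (E.chain a (p + τ)) (E.chain a p) (hP _) (hP _) k hk τ hτe hτ1' hτ2
    refine (Finset.sum_le_sum h1).trans ?_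
    rw [Finset.sum_add_distrib, Finset.sum_add_distrib, ← Finset.mul_sum, ← Finset.mul_sum,
      ← Finset.mul_sum, Finset.sum_add_distrib]
    have h2 := sum_shift_le I hI0 T τ
    have h3 := sum_trunc_le I hI0 T τ
    have h4 := sum_shift_le (fun n => E.Xk (E.chain a n) k) hX0 T τ
    gcongr
  -- bookkeeping
  obtain ⟨SY, hSY⟩ : ∃ SY : ℝ, SY = ∑ n ∈ range T,
    (∑ j ∈ range (k + 1), √(E.Yk (E.chain a n) j)) ^ 2 / (2 ^ k) ^ 2 := ⟨_, rfl⟩
  have hSY0 : 0 ≤ SY := by rw [hSY]; positivity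
  have hSB : ∑ n ∈ range T, B n = SY * (2 ^ k) ^ 2 / (E.M / E.ε * 2 ^ k * tim s k) ^ 2 := by
    rw [hSY, Finset.sum_mul, Finset.sum_div, hB]
    refine Finset.sum_congr rfl (fun n _ => ?_)
    have : E.R k = E.M / E.ε * 2 ^ k * tim s k := rfl
    simp only [this]
    field_simp
  have key := book (SX0 := ∑ n ∈ range T, E.Xk (E.chain a n) k)
    (XX := ∑ n ∈ range T, E.Xk (E.chain a n) (k + 1)) (SI := ∑ n ∈ range T, I n)
    (SJ := ∑ n ∈ range T, J n) hC2 hC3 hCK3 hM ht1 htk hε' (by linarith only [hε', hε1]) (Nat.cast_nonneg τ) hετ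
    (Nat.cast_nonneg T) hT (Finset.sum_nonneg (fun n _ => hI0 n))
    (Finset.sum_le_sum (fun n _ => hIJ n)) (by positivity : (0 : ℝ) < 2 ^ k) hSB hSY0 hDsum hXsum
    (Finset.sum_nonneg (fun n _ => hX0 n))
  have hSYle : SY ≤ 2 * ∑ j ∈ range (k + 1), 2 ^ j / 2 ^ k *
      (∑ n ∈ range T, E.Yk (E.chain a n) j / (2 ^ j) ^ 2) := by
    rw [hSY]
    refine (Finset.sum_le_sum (fun n _ => scale_cs k (fun j => E.Yk (E.chain a n) j) (hY0 n))).trans
      (le_of_eq ?_)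
    rw [← Finset.mul_sum, Finset.sum_comm]
    congr 1
    refine Finset.sum_congr rfl (fun j _ => ?_)
    rw [Finset.mul_sum]
  have hYS0 : 0 ≤ ∑ j ∈ range (k + 1), 2 ^ j / 2 ^ k *
            (E.ε * ∑ n ∈ range T, E.Yk (E.chain a n) j / (2 ^ j) ^ 2) := by
    refine Finset.sum_nonneg (fun j hj => ?_)
    rw [Finset.mem_range] at hj
    have : 0 ≤ ∑ n ∈ range T, E.Yk (E.chain a n) j / (2 ^ j) ^ 2 :=
      Finset.sum_nonneg (fun n _ => div_nonneg (hY0 n j (by omega)) (by positivity))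
    positivity
  have hfin : C2 * C3 / E.M * (E.ε * SY) ≤ (2 + 2 * C2 + 2 * C2 * C3) / E.M *
      ∑ j ∈ range (k + 1), 2 ^ j / 2 ^ k *
            (E.ε * ∑ n ∈ range T, E.Yk (E.chain a n) j / (2 ^ j) ^ 2) := by
    have e : ∑ j ∈ range (k + 1), 2 ^ j / 2 ^ k *
            (E.ε * ∑ n ∈ range T, E.Yk (E.chain a n) j / (2 ^ j) ^ 2) =
        E.ε * ∑ j ∈ range (k + 1), 2 ^ j / 2 ^ k *
            (∑ n ∈ range T, E.Yk (E.chain a n) j / (2 ^ j) ^ 2) := by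
      rw [Finset.mul_sum]
      exact Finset.sum_congr rfl (fun j _ => by ring)
    calc C2 * C3 / E.M * (E.ε * SY) ≤ C2 * C3 / E.M * (E.ε * (2 * ∑ j ∈ range (k + 1), 2 ^ j / 2 ^ k *
            (∑ n ∈ range T, E.Yk (E.chain a n) j / (2 ^ j) ^ 2))) := by gcongr
      _ = 2 * C2 * C3 / E.M * ∑ j ∈ range (k + 1), 2 ^ j / 2 ^ k *
            (E.ε * ∑ n ∈ range T, E.Yk (E.chain a n) j / (2 ^ j) ^ 2) := by rw [e]; ring
      _ ≤ _ := by
        refine mul_le_mul_of_nonneg_right ?_ hYS0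
        gcongr
        linarith only [hC2, hε', hε1]
  rw [hJ] at key
  linarith only [key, hfin]

end KD.I.G4
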