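import Pool.Agent.Helper37.KD.DefsC
import Pool.Agent.Helper37.KD.St.F1
import Pool.Agent.Helper37.KD.St.F2
import Pool.Agent.Helper37.KD.St.F3
import Pool.Agent.Helper37.KD.St.B2

/-! KD Part I, piece F4 (helper45) -/

namespace KD.I.F4

open Finset

/-! ### elementary facts -/

theorem sum_idx (n : ℕ) {Θ : Type} [Fintype Θ] (f : ℕ → Θ → ℝ) :
    ∑ i : Fin n × Θ, f i.1 i.2 = ∑ j ∈ range n, ∑ θ, f j θ := by
  rw [Fintype.sum_prod_type, Finset.sum_range]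

theorem tim_eq (s : ℝ) (k : ℕ) : tim s k = ((2 : ℝ) ^ (2 * s)) ^ k := by
  unfold tim
  rw [Real.rpow_mul_natCast two_pos.le]

theorem far_geom {s : ℝ} (hs : 0 < s) (n k : ℕ) :
    ∑ j ∈ range n, (if k = 0 ∨ k < j then (1 : ℝ) / tim s j else 0) ≤
      (1 - ((2 : ℝ) ^ (2 * s))⁻¹)⁻¹ / tim s k := by
  set A : ℝ := (2 : ℝ) ^ (2 * s) with hA
  have hA1 : 1 < A := Real.one_lt_rpow one_lt_two (by positivity)
  have hA0 : 0 < A := by linarith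
  have hr0 : 0 ≤ A⁻¹ := by positivity
  have hr1 : A⁻¹ < 1 := inv_lt_one_of_one_lt₀ hA1
  have h1 : ∑ j ∈ range n, (if k = 0 ∨ k < j then (1 : ℝ) / tim s j else 0) ≤
      ∑ j ∈ (range n).filter (fun j => k ≤ j), (A⁻¹) ^ j := by
    rw [Finset.sum_filter]
    refine Finset.sum_le_sum (fun j _ => ?_)
    have e : (1 : ℝ) / tim s j = (A⁻¹) ^ j := by rw [tim_eq, ← hA, inv_pow, one_div]
    by_cases h : k = 0 ∨ k < j
    · have hkj : k ≤ j := by omega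
      rw [if_pos h, if_pos hkj, e]
    · rw [if_neg h]
      split_ifs
      · positivity
      · exact le_refl _
  have h2 : (range n).filter (fun j => k ≤ j) = Ico k n := by
    ext j; simp [Finset.mem_Ico]; tauto
  rw [h2] at h1
  refine h1.trans ((geom_sum_Ico_le_of_lt_one hr0 hr1).trans (le_of_eq ?_))
  rw [tim_eq, ← hA, inv_pow]
  field_simp

theorem near_geom {s : ℝ} (hs1 : s < 1) (n k : ℕ) :
    ∑ j ∈ range n, (if k = 0 ∨ k < j then 0 else (1 : ℝ) / tim s j * (2 ^ j / 2 ^ k) ^ 2) ≤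
      (1 - (2 : ℝ) ^ (2 * s) / 4)⁻¹ / tim s k := by
  set A : ℝ := (2 : ℝ) ^ (2 * s) with hA
  have hA0 : 0 < A := Real.rpow_pos_of_pos two_pos _
  have hA4 : A < 4 := by
    have : A < (2 : ℝ) ^ (2 : ℝ) := Real.rpow_lt_rpow_of_exponent_lt one_lt_two (by linarith)
    have e : (2 : ℝ) ^ (2 : ℝ) = 4 := by norm_num
    linarith
  have hr0 : 0 ≤ A / 4 := by positivity
  have hr1 : A / 4 < 1 := by linarith
  have hpos : 0 < 1 - A / 4 := by linarith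
  have h1 : ∑ j ∈ range n, (if k = 0 ∨ k < j then 0 else (1 : ℝ) / tim s j * (2 ^ j / 2 ^ k) ^ 2) ≤
      ∑ j ∈ (range n).filter (fun j => j ≤ k), 1 / tim s k * (A / 4) ^ (k - j) := by
    rw [Finset.sum_filter]
    refine Finset.sum_le_sum (fun j _ => ?_)
    have htk := tim_pos s k
    by_cases h : k = 0 ∨ k < j
    · rw [if_pos h]
      split_ifs
      · positivity
      · exact le_refl _
    · have hjk : j ≤ k := by omega
      rw [if_neg h, if_pos hjk]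
      obtain ⟨i, rfl⟩ := Nat.exists_eq_add_of_le hjk
      have hi : j + i - j = i := by omega
      have eA : A ^ i = tim s i := (tim_eq s i).symm
      rw [hi, tim_add, div_pow A, eA]
      have h1 := tim_pos s j
      have h2 := tim_pos s i
      have h3 : ((4 : ℝ)) ^ i = (2 ^ i) ^ 2 := by
        rw [← pow_mul, mul_comm, pow_mul]; norm_num
      rw [h3, pow_add]
      apply le_of_eq
      field_simp
  have h2 : ∑ j ∈ (range n).filter (fun j => j ≤ k), 1 / tim s k * (A / 4) ^ (k - j) ≤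
      ∑ j ∈ range (k + 1), 1 / tim s k * (A / 4) ^ (k - j) := by
    refine Finset.sum_le_sum_of_subset_of_nonneg ?_ (fun j _ _ => ?_)
    · intro j hj
      simp only [Finset.mem_filter, Finset.mem_range] at hj ⊢
      omega
    · have htk := tim_pos s k
      positivity
  refine (h1.trans h2).trans ?_
  rw [← Finset.mul_sum]
  have h3 : ∑ j ∈ range (k + 1), (A / 4) ^ (k - j) = ∑ j ∈ range (k + 1), (A / 4) ^ j := by
    have := Finset.sum_range_reflect (fun j => (A / 4) ^ j) (k + 1)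
    simpa using this
  rw [h3]
  have h4 : ∑ j ∈ range (k + 1), (A / 4) ^ j ≤ (1 - A / 4)⁻¹ := by
    have := geom_sum_Ico_le_of_lt_one (m := 0) (n := k + 1) hr0 hr1
    rw [Finset.range_eq_Ico]
    refine this.trans (le_of_eq ?_)
    rw [pow_zero, one_div]
  have htk := tim_pos s k
  calc 1 / tim s k * ∑ j ∈ range (k + 1), (A / 4) ^ j ≤ 1 / tim s k * (1 - A / 4)⁻¹ :=
        mul_le_mul_of_nonneg_left h4 (by positivity)
    _ = _ := by ring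

theorem n1_le {d N : ℕ} (x : V d N) : n1 x ≤ d * nsup x := by
  have h : ∀ i : Fin d, ((x i).valMinAbs.natAbs : ℝ) ≤ (nsup x : ℝ) := by
    intro i
    have h3 : (x i).valMinAbs.natAbs ≤ nsup x :=
      Finset.le_sup (f := fun i => (x i).valMinAbs.natAbs) (Finset.mem_univ i)
    exact_mod_cast h3
  have h2 := Finset.sum_le_card_nsmul (Finset.univ : Finset (Fin d)) _ _ (fun i _ => h i)
  unfold n1
  simpa using h2

theorem n1_nonneg {d N : ℕ} (x : V d N) : 0 ≤ n1 x := by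
  unfold n1; positivity

theorem n1_neg {d N : ℕ} [NeZero N] (x : V d N) : n1 (-x) = n1 x := by
  unfold n1
  refine Finset.sum_congr rfl (fun i _ => ?_)
  rw [Pi.neg_apply, ZMod.natAbs_valMinAbs_neg]

theorem n1_zero {d N : ℕ} : n1 (0 : V d N) = 0 := by
  unfold n1; simp

section env
variable {d : ℕ} {s c0 C0 C1 : ℝ} (E : Env d s c0 C0 C1)

theorem nm_nonneg (k : ℕ) (w : E.G) : 0 ≤ E.nm k w := by
  unfold Env.nm nrm
  have h1 := E.R_pos k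
  have h2 := n1_nonneg w.1
  have h3 := n1_nonneg w.2
  positivity

theorem nm_neg (k : ℕ) (w : E.G) : E.nm k (-w) = E.nm k w := by
  unfold Env.nm nrm
  rw [Prod.fst_neg, Prod.snd_neg, n1_neg, n1_neg]

theorem nm_zero (k : ℕ) : E.nm k 0 = 0 := by
  unfold Env.nm nrm
  simp [n1_zero]

theorem nm_jv {j : ℕ} (hj : j ≤ E.K + 3) (θ : E.Θ) (k : ℕ) :
    E.nm k (E.S.jv j θ) ≤ 2 * d * (2 ^ j / 2 ^ k) := by
  unfold Env.nm nrm JSys.jv vs
  simp only [n1_zero, zero_div, zero_add]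
  have h1 := n1_le (E.S.pi j θ)
  have h2 : ((nsup (E.S.pi j θ) : ℕ) : ℝ) ≤ 2 ^ (j + 1) := by
    exact_mod_cast (E.S.pi_hi j hj θ).le
  rw [div_le_iff₀ (by positivity)]
  calc n1 (E.S.pi j θ) ≤ d * nsup (E.S.pi j θ) := h1
    _ ≤ d * 2 ^ (j + 1) := by gcongr
    _ = 2 * d * (2 ^ j / 2 ^ k) * 2 ^ k := by
        field_simp; ring

theorem wt_nonneg (j : ℕ) (θ : E.Θ) : 0 ≤ E.S.wt s j θ :=
  div_nonneg (E.S.m_nn θ) (tim_pos s j).le

theorem diss_nonneg {x y : ℝ} (hx : 0 < x) (hy : 0 < y) : 0 ≤ (x - y) * (Real.log x - Real.log y) := by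
  rcases le_total x y with h | h
  · exact mul_nonneg_of_nonpos_of_nonpos (by linarith) (by linarith [Real.log_le_log hx h])
  · exact mul_nonneg (by linarith) (by linarith [Real.log_le_log hy h])

/-- restricting the weights decreases the sums -/
theorem restrict_le {n : ℕ} (w w' : Fin n × E.Θ → ℝ) (f f' : Fin n × E.Θ → ℝ)
    (h0 : ∀ i, 0 ≤ w i * f i) (h : ∀ i, w' i * f' i = w i * f i ∨ w' i * f' i = 0) :
    ∑ i, w' i * f' i ≤ ∑ i, w i * f i := by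
  refine Finset.sum_le_sum (fun i _ => ?_)
  rcases h i with h | h
  · rw [h]
  · rw [h]; exact h0 i

theorem If_eq (u : E.G → ℝ) : E.S.If s u = ∑ i : Fin (E.K + 4) × E.Θ, E.S.wt s i.1 i.2 *
    ∑ z, (u (z + E.S.jv i.1 i.2) - u z) * (Real.log (u (z + E.S.jv i.1 i.2)) - Real.log (u z)) := by
  unfold JSys.If
  rw [sum_idx (E.K + 4) (fun j θ => E.S.wt s j θ *
    ∑ z, (u (z + E.S.jv j θ) - u z) * (Real.log (u (z + E.S.jv j θ)) - Real.log (u z)))]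

theorem Ef_eq (b : ℕ → E.Θ → E.G → ℝ) (u : E.G → ℝ) :
    E.S.Ef s b u = ∑ i : Fin (E.K + 4) × E.Θ, E.S.wt s i.1 i.2 *
    ∑ z, min (u z) (u (z + E.S.jv i.1 i.2)) *
      (b i.1 i.2 (z + E.S.jv i.1 i.2) / u (z + E.S.jv i.1 i.2) - b i.1 i.2 z / u z) ^ 2 := by
  unfold JSys.Ef
  rw [sum_idx (E.K + 4) (fun j θ => E.S.wt s j θ *
    ∑ z, min (u z) (u (z + E.S.jv j θ)) *
      (b j θ (z + E.S.jv j θ) / u (z + E.S.jv j θ) - b j θ z / u z) ^ 2)]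

theorem If_term_nonneg {u : E.G → ℝ} (hu : ∀ z, 0 < u z) (i : Fin (E.K + 4) × E.Θ) :
    0 ≤ E.S.wt s i.1 i.2 *
    ∑ z, (u (z + E.S.jv i.1 i.2) - u z) * (Real.log (u (z + E.S.jv i.1 i.2)) - Real.log (u z)) :=
  mul_nonneg (wt_nonneg E _ _) (Finset.sum_nonneg (fun z _ => diss_nonneg (hu _) (hu _)))

theorem Ef_term_nonneg {u : E.G → ℝ} (hu : ∀ z, 0 < u z) (b : ℕ → E.Θ → E.G → ℝ)
    (i : Fin (E.K + 4) × E.Θ) :
    0 ≤ E.S.wt s i.1 i.2 * ∑ z, min (u z) (u (z + E.S.jv i.1 i.2)) *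
      (b i.1 i.2 (z + E.S.jv i.1 i.2) / u (z + E.S.jv i.1 i.2) - b i.1 i.2 z / u z) ^ 2 :=
  mul_nonneg (wt_nonneg E _ _) (Finset.sum_nonneg (fun z _ =>
    mul_nonneg (le_min (hu _).le (hu _).le) (sq_nonneg _)))

theorem bl_le {lam Lam M0 : ℝ} {a : ℕ → E.Θ → E.G → ℝ} (ha : E.S.Coef lam Lam M0 a)
    {μ : E.G → ℝ} (hμ : IsP μ) {k : ℕ} (hk : k ≤ E.K + 1) (j : ℕ) (θ : E.Θ) (z : E.G) :
    E.bl a μ k j θ z ≤ Lam * lev E.q μ k z := by
  have h := lev_smul E.q μ Lam k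
  have h2 : Lam * lev E.q μ k z = lev E.q (fun z => Lam * μ z) k z := by rw [h]
  rw [h2]
  exact lev_mono (fun i hi y => (E.q_pos (by omega) y).le)
    (fun y => mul_le_mul_of_nonneg_right (ha.hi j θ y) (hμ.nn y)) z

theorem le_bl {lam Lam M0 : ℝ} {a : ℕ → E.Θ → E.G → ℝ} (ha : E.S.Coef lam Lam M0 a)
    {μ : E.G → ℝ} (hμ : IsP μ) {k : ℕ} (hk : k ≤ E.K + 1) (j : ℕ) (θ : E.Θ) (z : E.G) :
    lam * lev E.q μ k z ≤ E.bl a μ k j θ z := by
  have h := lev_smul E.q μ lam k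
  have h2 : lam * lev E.q μ k z = lev E.q (fun z => lam * μ z) k z := by rw [h]
  rw [h2]
  exact lev_mono (fun i hi y => (E.q_pos (by omega) y).le)
    (fun y => mul_le_mul_of_nonneg_right (ha.lo j θ y) (hμ.nn y)) z

end env

/-- the near part -/
theorem near_bound (s lam Lam c0 C0 C1 : ℝ) (d : ℕ) (hd : 1 ≤ d) (hs : 0 < s) (hs1 : s < 1)
    (hlam : 0 < lam) (hLam : lam ≤ Lam) (hC0 : 0 < C0) : ∃ C : ℝ, 0 < C ∧
    ∀ (E : Env d s c0 C0 C1) (M0 : ℝ) (a : ℕ → E.Θ → E.G → ℝ), E.S.Coef lam Lam M0 a → ∀ μ, IsP μ →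
    ∀ k ≤ E.K,
      ∑ z, (∑ i : Fin (E.K + 4) × E.Θ, (if k = 0 ∨ k < (i.1 : ℕ) then 0 else E.S.wt s i.1 i.2) *
          (E.bl a μ (k + 1) i.1 i.2 (z + E.S.jv i.1 i.2) - E.bl a μ (k + 1) i.1 i.2 z)) ^ 2 /
            lev E.q μ (k + 1) z
        ≤ C / tim s k * (if k = 0 then 0 else E.Ik μ (k - 1) + E.Ek a μ (k - 1)) := by
  have hLam0 : 0 < Lam := lt_of_lt_of_le hlam hLam
  obtain ⟨CN, hCN, HN⟩ := near_split Lam hLam0 (2 * d) (by positivity)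
  have hA4 : (2 : ℝ) ^ (2 * s) < 4 := by
    have : (2 : ℝ) ^ (2 * s) < (2 : ℝ) ^ (2 : ℝ) :=
      Real.rpow_lt_rpow_of_exponent_lt one_lt_two (by linarith)
    have e : (2 : ℝ) ^ (2 : ℝ) = 4 := by norm_num
    linarith
  have hpos : 0 < 1 - (2 : ℝ) ^ (2 * s) / 4 := by linarith
  have hd0 : (0 : ℝ) < d := by exact_mod_cast hd
  refine ⟨CN * (C0 * (4 * d ^ 2) * (1 - (2 : ℝ) ^ (2 * s) / 4)⁻¹), by positivity, ?_⟩
  intro E M0 a ha μ hμ k hk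
  rcases Nat.eq_zero_or_pos k with rfl | hk0
  · simp
  have hk0' : ¬ k = 0 := by omega
  have hk1 : k - 1 + 1 = k := Nat.sub_add_cancel hk0
  rw [if_neg hk0']
  -- data for `near_split`
  obtain ⟨wn, hwn⟩ : ∃ wn : Fin (E.K + 4) × E.Θ → ℝ, wn =
    fun i => if k = 0 ∨ k < (i.1 : ℕ) then 0 else E.S.wt s i.1 i.2 := ⟨_, rfl⟩
  obtain ⟨ℓn, hℓn⟩ : ∃ ℓn : Fin (E.K + 4) × E.Θ → E.G, ℓn =
    fun i => if k = 0 ∨ k < (i.1 : ℕ) then 0 else E.S.jv i.1 i.2 := ⟨_, rfl⟩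
  have wn1 : ∀ i, (k = 0 ∨ k < (i.1 : ℕ)) → wn i = 0 := fun i h => by rw [hwn]; exact if_pos h
  have wn2 : ∀ i, ¬ (k = 0 ∨ k < (i.1 : ℕ)) → wn i = E.S.wt s i.1 i.2 :=
    fun i h => by rw [hwn]; exact if_neg h
  have ln1 : ∀ i, (k = 0 ∨ k < (i.1 : ℕ)) → ℓn i = 0 := fun i h => by rw [hℓn]; exact if_pos h
  have ln2 : ∀ i, ¬ (k = 0 ∨ k < (i.1 : ℕ)) → ℓn i = E.S.jv i.1 i.2 :=
    fun i h => by rw [hℓn]; exact if_neg h
  have wn0 : ∀ i, 0 ≤ wn i := fun i => by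
    by_cases h : k = 0 ∨ k < (i.1 : ℕ)
    · rw [wn1 i h]
    · rw [wn2 i h]; exact wt_nonneg E _ _
  have hu : ∀ z, 0 < lev E.q μ k z := fun z => by
    have := E.u_pos hμ (k := k - 1) (by omega) z
    rwa [hk1] at this
  have H := HN E.G (Fin (E.K + 4) × E.Θ) (E.nm k) wn ℓn (fun i => (i.1, E.S.neg i.2)) (E.q k)
    (lev E.q μ k) (fun i => E.bl a μ k i.1 i.2)
    (nm_nonneg E k) (nm_neg E k) (E.q_pos hk) (E.q_mass hk) (E.ker k hk).lip wn0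
    (fun i => by simp only [E.S.neg_neg])
    (fun i => by
      by_cases h : k = 0 ∨ k < (i.1 : ℕ)
      · rw [ln1 i h, ln1 (i.1, E.S.neg i.2) h, neg_zero]
      · rw [ln2 i h, ln2 (i.1, E.S.neg i.2) h]
        unfold JSys.jv vs; rw [E.S.pi_neg]; ext <;> simp)
    (fun i => by
      by_cases h : k = 0 ∨ k < (i.1 : ℕ)
      · rw [wn1 i h, wn1 (i.1, E.S.neg i.2) h]
      · rw [wn2 i h, wn2 (i.1, E.S.neg i.2) h]
        unfold JSys.wt; rw [E.S.m_neg])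
    (fun i => by
      unfold Env.bl
      have : (fun z => a i.1 (E.S.neg i.2) z * μ z) = (fun z => a i.1 i.2 z * μ z) := by
        funext z; rw [ha.symm]
      simp only [this])
    (fun i => by
      by_cases h : k = 0 ∨ k < (i.1 : ℕ)
      · rw [ln1 i h, nm_zero]; positivity
      · rw [ln2 i h]
        refine (nm_jv E (by have := i.1.2; omega) i.2 k).trans ?_
        have h2 : (2 : ℝ) ^ (i.1 : ℕ) / 2 ^ k ≤ 1 := by
          rw [div_le_one (by positivity)]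
          exact pow_le_pow_right₀ one_le_two (by omega)
        calc 2 * (d : ℝ) * (2 ^ (i.1 : ℕ) / 2 ^ k) ≤ 2 * d * 1 := by gcongr
          _ = 2 * d := by ring)
    hu
    (fun i z => by
      have h1 := bl_le E ha hμ (k := k) (by omega) i.1 i.2 z
      have h2 := le_bl E ha hμ (k := k) (by omega) i.1 i.2 z
      rw [abs_le]
      have h3 := (hu z).le
      exact ⟨by nlinarith, h1⟩)
  -- left side
  have hL : ∑ z, (∑ i : Fin (E.K + 4) × E.Θ,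
      (if k = 0 ∨ k < (i.1 : ℕ) then 0 else E.S.wt s i.1 i.2) *
      (E.bl a μ (k + 1) i.1 i.2 (z + E.S.jv i.1 i.2) - E.bl a μ (k + 1) i.1 i.2 z)) ^ 2 /
        lev E.q μ (k + 1) z =
      ∑ z, (∑ i, wn i * (cv (E.q k) (E.bl a μ k i.1 i.2) (z + ℓn i)
        - cv (E.q k) (E.bl a μ k i.1 i.2) z)) ^ 2 / cv (E.q k) (lev E.q μ k) z := by
    refine Finset.sum_congr rfl (fun z _ => ?_)
    have : ∑ i : Fin (E.K + 4) × E.Θ, (if k = 0 ∨ k < (i.1 : ℕ) then 0 else E.S.wt s i.1 i.2) *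
      (E.bl a μ (k + 1) i.1 i.2 (z + E.S.jv i.1 i.2) - E.bl a μ (k + 1) i.1 i.2 z) =
      ∑ i, wn i * (cv (E.q k) (E.bl a μ k i.1 i.2) (z + ℓn i)
        - cv (E.q k) (E.bl a μ k i.1 i.2) z) := by
      refine Finset.sum_congr rfl (fun i _ => ?_)
      by_cases h : k = 0 ∨ k < (i.1 : ℕ)
      · rw [if_pos h, wn1 i h]; ring
      · rw [if_neg h, wn2 i h, ln2 i h]; rfl
    rw [this]; rfl
  rw [hL]
  refine H.trans ?_
  -- the weights
  have hW : ∑ i, wn i * E.nm k (ℓn i) ^ 2 ≤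
      C0 * (4 * d ^ 2) * (1 - (2 : ℝ) ^ (2 * s) / 4)⁻¹ / tim s k := by
    have h1 : ∑ i, wn i * E.nm k (ℓn i) ^ 2 ≤
        ∑ i : Fin (E.K + 4) × E.Θ, (if k = 0 ∨ k < (i.1 : ℕ) then 0 else
          (1 : ℝ) / tim s i.1 * (2 ^ (i.1 : ℕ) / 2 ^ k) ^ 2) * (4 * d ^ 2 * E.S.m i.2) := by
      refine Finset.sum_le_sum (fun i _ => ?_)
      by_cases h : k = 0 ∨ k < (i.1 : ℕ)
      · rw [if_pos h, wn1 i h]; simp
      · rw [if_neg h, wn2 i h, ln2 i h]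
        have h1 := nm_jv E (j := i.1) (by have := i.1.2; omega) i.2 k
        have h2 := nm_nonneg E k (E.S.jv i.1 i.2)
        have h3 : E.nm k (E.S.jv i.1 i.2) ^ 2 ≤ (2 * d * (2 ^ (i.1 : ℕ) / 2 ^ k)) ^ 2 :=
          pow_le_pow_left₀ h2 h1 2
        have h4 := E.S.m_nn i.2
        have h5 := tim_pos s i.1
        unfold JSys.wt
        calc E.S.m i.2 / tim s i.1 * E.nm k (E.S.jv i.1 i.2) ^ 2
            ≤ E.S.m i.2 / tim s i.1 * (2 * d * (2 ^ (i.1 : ℕ) / 2 ^ k)) ^ 2 := by gcongr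
          _ = _ := by ring
    have h2 : ∑ i : Fin (E.K + 4) × E.Θ, (if k = 0 ∨ k < (i.1 : ℕ) then 0 else
          (1 : ℝ) / tim s i.1 * (2 ^ (i.1 : ℕ) / 2 ^ k) ^ 2) * (4 * d ^ 2 * E.S.m i.2) =
        (∑ j ∈ range (E.K + 4), if k = 0 ∨ k < j then 0 else
          (1 : ℝ) / tim s j * (2 ^ j / 2 ^ k) ^ 2) * (4 * d ^ 2 * ∑ θ, E.S.m θ) := by
      rw [sum_idx (E.K + 4) (fun j (θ : E.Θ) => (if k = 0 ∨ k < j then 0 else
          (1 : ℝ) / tim s j * (2 ^ j / 2 ^ k) ^ 2) * (4 * d ^ 2 * E.S.m θ)), Finset.sum_mul]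
      refine Finset.sum_congr rfl (fun j _ => ?_)
      rw [Finset.mul_sum, Finset.mul_sum]
    rw [h2] at h1
    have h3 := near_geom hs1 (E.K + 4) k
    have h4 := E.S.mass
    have h5 : 0 ≤ ∑ θ, E.S.m θ := Finset.sum_nonneg (fun θ _ => E.S.m_nn θ)
    have h6 := tim_pos s k
    calc _ ≤ _ := h1
      _ ≤ ((1 - (2 : ℝ) ^ (2 * s) / 4)⁻¹ / tim s k) * (4 * d ^ 2 * C0) := by gcongr
      _ = _ := by ring
  -- the functionals
  have hI : (∑ i, wn i * ∑ z, (lev E.q μ k (z + ℓn i) - lev E.q μ k z) *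
      (Real.log (lev E.q μ k (z + ℓn i)) - Real.log (lev E.q μ k z))) ≤ E.Ik μ (k - 1) := by
    unfold Env.Ik
    rw [hk1, If_eq]
    refine restrict_le E _ _ _ _ (If_term_nonneg E hu) (fun i => ?_)
    by_cases h : k = 0 ∨ k < (i.1 : ℕ)
    · right; rw [wn1 i h]; ring
    · left; rw [wn2 i h, ln2 i h]
  have hE : (∑ i, wn i * ∑ z, min (lev E.q μ k z) (lev E.q μ k (z + ℓn i)) *
      (E.bl a μ k i.1 i.2 (z + ℓn i) / lev E.q μ k (z + ℓn i) - E.bl a μ k i.1 i.2 z / lev E.q μ k z) ^ 2)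
      ≤ E.Ek a μ (k - 1) := by
    unfold Env.Ek
    rw [hk1, Ef_eq]
    refine restrict_le E _ _ _ _ (Ef_term_nonneg E hu _) (fun i => ?_)
    by_cases h : k = 0 ∨ k < (i.1 : ℕ)
    · right; rw [wn1 i h]; ring
    · left; rw [wn2 i h, ln2 i h]
  have hI0 : 0 ≤ (∑ i, wn i * ∑ z, (lev E.q μ k (z + ℓn i) - lev E.q μ k z) *
      (Real.log (lev E.q μ k (z + ℓn i)) - Real.log (lev E.q μ k z))) := by
    exact Finset.sum_nonneg (fun i _ => mul_nonneg (wn0 i) (Finset.sum_nonneg (fun z _ =>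
      diss_nonneg (hu _) (hu _))))
  have hE0 : 0 ≤ (∑ i, wn i * ∑ z, min (lev E.q μ k z) (lev E.q μ k (z + ℓn i)) *
      (E.bl a μ k i.1 i.2 (z + ℓn i) / lev E.q μ k (z + ℓn i)
        - E.bl a μ k i.1 i.2 z / lev E.q μ k z) ^ 2) := by
    exact Finset.sum_nonneg (fun i _ => mul_nonneg (wn0 i) (Finset.sum_nonneg (fun z _ =>
      mul_nonneg (le_min (hu _).le (hu _).le) (sq_nonneg _))))
  have hW0 : 0 ≤ ∑ i, wn i * E.nm k (ℓn i) ^ 2 := by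
    exact Finset.sum_nonneg (fun i _ => mul_nonneg (wn0 i) (sq_nonneg _))
  have htk := tim_pos s k
  calc _ ≤ CN * (C0 * (4 * d ^ 2) * (1 - (2 : ℝ) ^ (2 * s) / 4)⁻¹ / tim s k) *
        (E.Ik μ (k - 1) + E.Ek a μ (k - 1)) :=
        mul_le_mul (mul_le_mul_of_nonneg_left hW hCN.le) (add_le_add hI hE)
          (add_nonneg hI0 hE0) (by positivity)
    _ = _ := by ring

/-- the far part -/
theorem far_bound (s lam Lam c0 C0 C1 : ℝ) (d : ℕ) (hs : 0 < s)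
    (hlam : 0 < lam) (hLam : lam ≤ Lam) (hC0 : 0 < C0) : ∃ C : ℝ, 0 < C ∧
    ∀ (E : Env d s c0 C0 C1) (M0 : ℝ) (a : ℕ → E.Θ → E.G → ℝ), E.S.Coef lam Lam M0 a → ∀ μ, IsP μ →
    ∀ k ≤ E.K, ∃ g : E.G → ℝ, (∀ z, 0 ≤ g z) ∧ (∑ z, g z ≤ Lam * E.Ik μ k) ∧
      ∑ z, (∑ i : Fin (E.K + 4) × E.Θ, (if k = 0 ∨ k < (i.1 : ℕ) then E.S.wt s i.1 i.2 else 0) *
          (E.bl a μ (k + 1) i.1 i.2 (z + E.S.jv i.1 i.2) - E.bl a μ (k + 1) i.1 i.2 z) - g z) ^ 2 /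
            lev E.q μ (k + 1) z
        ≤ C / tim s k * (E.Ik μ k + E.Ek a μ k) := by
  have hLam0 : 0 < Lam := lt_of_lt_of_le hlam hLam
  obtain ⟨CF, hCF, HF⟩ := far_split lam Lam hlam hLam
  have hA1 : (1 : ℝ) < (2 : ℝ) ^ (2 * s) := Real.one_lt_rpow one_lt_two (by positivity)
  have hpos : 0 < 1 - ((2 : ℝ) ^ (2 * s))⁻¹ := by
    have := inv_lt_one_of_one_lt₀ hA1
    linarith
  refine ⟨CF * (C0 * (1 - ((2 : ℝ) ^ (2 * s))⁻¹)⁻¹), by positivity, ?_⟩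
  intro E M0 a ha μ hμ k hk
  have htk := tim_pos s k
  obtain ⟨wf, hwf⟩ : ∃ wf : Fin (E.K + 4) × E.Θ → ℝ, wf =
    fun i => if k = 0 ∨ k < (i.1 : ℕ) then E.S.wt s i.1 i.2 else 0 := ⟨_, rfl⟩
  have wf1 : ∀ i, (k = 0 ∨ k < (i.1 : ℕ)) → wf i = E.S.wt s i.1 i.2 :=
    fun i h => by rw [hwf]; exact if_pos h
  have wf2 : ∀ i, ¬ (k = 0 ∨ k < (i.1 : ℕ)) → wf i = 0 :=
    fun i h => by rw [hwf]; exact if_neg h
  have wf0 : ∀ i, 0 ≤ wf i := fun i => by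
    by_cases h : k = 0 ∨ k < (i.1 : ℕ)
    · rw [wf1 i h]; exact wt_nonneg E _ _
    · rw [wf2 i h]
  have hu : ∀ z, 0 < lev E.q μ (k + 1) z := fun z => E.u_pos hμ hk z
  have hW : ∑ i, wf i ≤ C0 * (1 - ((2 : ℝ) ^ (2 * s))⁻¹)⁻¹ / tim s k := by
    have h1 : ∑ i, wf i = ∑ i : Fin (E.K + 4) × E.Θ,
        (if k = 0 ∨ k < (i.1 : ℕ) then (1 : ℝ) / tim s i.1 else 0) * E.S.m i.2 := by
      refine Finset.sum_congr rfl (fun i _ => ?_)
      by_cases h : k = 0 ∨ k < (i.1 : ℕ)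
      · rw [if_pos h, wf1 i h]; unfold JSys.wt; ring
      · rw [if_neg h, wf2 i h]; ring
    have h2 : ∑ i : Fin (E.K + 4) × E.Θ,
        (if k = 0 ∨ k < (i.1 : ℕ) then (1 : ℝ) / tim s i.1 else 0) * E.S.m i.2 =
        (∑ j ∈ range (E.K + 4), if k = 0 ∨ k < j then (1 : ℝ) / tim s j else 0) *
          ∑ θ, E.S.m θ := by
      rw [sum_idx (E.K + 4) (fun j (θ : E.Θ) =>
        (if k = 0 ∨ k < j then (1 : ℝ) / tim s j else 0) * E.S.m θ), Finset.sum_mul]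
      refine Finset.sum_congr rfl (fun j _ => ?_)
      rw [Finset.mul_sum]
    rw [h1, h2]
    have h3 := far_geom hs (E.K + 4) k
    have h4 := E.S.mass
    have h5 : 0 ≤ ∑ θ, E.S.m θ := Finset.sum_nonneg (fun θ _ => E.S.m_nn θ)
    calc _ ≤ ((1 - ((2 : ℝ) ^ (2 * s))⁻¹)⁻¹ / tim s k) * C0 := by gcongr
      _ = _ := by ring
  obtain ⟨g, hg0, hg1, hg2⟩ := HF E.G (Fin (E.K + 4) × E.Θ) wf (fun i => E.S.jv i.1 i.2)
    (fun i => E.bl a μ (k + 1) i.1 i.2) (lev E.q μ (k + 1))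
    (C0 * (1 - ((2 : ℝ) ^ (2 * s))⁻¹)⁻¹ / tim s k) wf0 hW hu
    (fun i z => le_bl E ha hμ (k := k + 1) (by omega) i.1 i.2 z)
    (fun i z => bl_le E ha hμ (k := k + 1) (by omega) i.1 i.2 z)
  have hI : (∑ i, wf i * ∑ z, (lev E.q μ (k + 1) (z + E.S.jv i.1 i.2) - lev E.q μ (k + 1) z) *
      (Real.log (lev E.q μ (k + 1) (z + E.S.jv i.1 i.2)) - Real.log (lev E.q μ (k + 1) z)))
      ≤ E.Ik μ k := by
    unfold Env.Ik
    rw [If_eq]
    refine restrict_le E _ _ _ _ (If_term_nonneg E hu) (fun i => ?_)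
    by_cases h : k = 0 ∨ k < (i.1 : ℕ)
    · left; rw [wf1 i h]
    · right; rw [wf2 i h]; ring
  have hE : (∑ i, wf i * ∑ z, min (lev E.q μ (k + 1) z) (lev E.q μ (k + 1) (z + E.S.jv i.1 i.2)) *
      (E.bl a μ (k + 1) i.1 i.2 (z + E.S.jv i.1 i.2) / lev E.q μ (k + 1) (z + E.S.jv i.1 i.2)
        - E.bl a μ (k + 1) i.1 i.2 z / lev E.q μ (k + 1) z) ^ 2) ≤ E.Ek a μ k := by
    unfold Env.Ek
    rw [Ef_eq]
    refine restrict_le E _ _ _ _ (Ef_term_nonneg E hu _) (fun i => ?_)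
    by_cases h : k = 0 ∨ k < (i.1 : ℕ)
    · left; rw [wf1 i h]
    · right; rw [wf2 i h]; ring
  refine ⟨g, hg0, hg1.trans (mul_le_mul_of_nonneg_left hI hLam0.le), ?_⟩
  have e : ∑ z, (∑ i : Fin (E.K + 4) × E.Θ,
      (if k = 0 ∨ k < (i.1 : ℕ) then E.S.wt s i.1 i.2 else 0) *
          (E.bl a μ (k + 1) i.1 i.2 (z + E.S.jv i.1 i.2) - E.bl a μ (k + 1) i.1 i.2 z) - g z) ^ 2 /
            lev E.q μ (k + 1) z = ∑ z, (∑ i : Fin (E.K + 4) × E.Θ, wf i *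
          (E.bl a μ (k + 1) i.1 i.2 (z + E.S.jv i.1 i.2) - E.bl a μ (k + 1) i.1 i.2 z) - g z) ^ 2 /
            lev E.q μ (k + 1) z := by rw [hwf]
  rw [e]
  refine hg2.trans ?_
  have hC : 0 ≤ CF * (C0 * (1 - ((2 : ℝ) ^ (2 * s))⁻¹)⁻¹ / tim s k) := by positivity
  calc _ ≤ CF * (C0 * (1 - ((2 : ℝ) ^ (2 * s))⁻¹)⁻¹ / tim s k) * (E.Ik μ k + E.Ek a μ k) :=
        mul_le_mul_of_nonneg_left (add_le_add hI hE) hC
    _ = _ := by ring

/-- jump part of the drift -/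
theorem drift_jump (s lam Lam c0 C0 C1 : ℝ) (d : ℕ) (hd : 1 ≤ d) (hs : 0 < s) (hs1 : s < 1)
    (hlam : 0 < lam) (hLam : lam ≤ Lam) (hC0 : 0 < C0) : ∃ C : ℝ, 0 < C ∧
    ∀ K : ℕ, ∃ ε0 : ℝ, 0 < ε0 ∧
    ∀ (E : Env d s c0 C0 C1), E.K = K → E.ε ≤ ε0 →
    ∀ (M0 : ℝ) (a : ℕ → E.Θ → E.G → ℝ), E.S.Coef lam Lam M0 a → ∀ μ, IsP μ → ∀ k ≤ K,
    ∀ ψ : E.G → ℝ, (∀ z, 0 ≤ ψ z) →
      √(∑ z, (√(lev E.q (E.Jop a μ) (k + 1) z) - ψ z) ^ 2) ≤
        √(∑ z, (√(lev E.q μ (k + 1) z) - ψ z) ^ 2 + E.ε * Lam * E.Ik μ k)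
        + C * E.ε / √(tim s k) * √(E.Ik μ k + E.Ek a μ k
            + if k = 0 then 0 else E.Ik μ (k - 1) + E.Ek a μ (k - 1)) := by
  have hLam0 : 0 < Lam := lt_of_lt_of_le hlam hLam
  obtain ⟨Cf, hCf, HF⟩ := far_bound s lam Lam c0 C0 C1 d hs hlam hLam hC0
  obtain ⟨Cn, hCn, HN⟩ := near_bound s lam Lam c0 C0 C1 d hd hs hs1 hlam hLam hC0
  refine ⟨√(2 * (Cf + Cn)), by positivity, ?_⟩
  intro K
  obtain ⟨ε0, hε0, Hstep⟩ := step_isP s Lam c0 C0 C1 d hs hLam0 hC0 K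
  refine ⟨ε0, hε0, ?_⟩
  intro E hEK hε M0 a ha μ hμ k hk ψ hψ
  subst hEK
  have hJ := (Hstep E rfl hε lam M0 a hlam ha μ hμ).1
  have htk := tim_pos s k
  have hε' := E.hε
  have hu : ∀ z, 0 < lev E.q μ (k + 1) z := fun z => E.u_pos hμ hk z
  obtain ⟨g, hg0, hg1, hg2⟩ := HF E M0 a ha μ hμ k hk
  have hn := HN E M0 a ha μ hμ k hk
  -- the two parts
  obtain ⟨hf, hhf⟩ : ∃ hf : E.G → ℝ, hf = fun z => ∑ i : Fin (E.K + 4) × E.Θ,
      (if k = 0 ∨ k < (i.1 : ℕ) then E.S.wt s i.1 i.2 else 0) *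
      (E.bl a μ (k + 1) i.1 i.2 (z + E.S.jv i.1 i.2) - E.bl a μ (k + 1) i.1 i.2 z) := ⟨_, rfl⟩
  obtain ⟨hn', hhn⟩ : ∃ hn' : E.G → ℝ, hn' = fun z => ∑ i : Fin (E.K + 4) × E.Θ,
      (if k = 0 ∨ k < (i.1 : ℕ) then 0 else E.S.wt s i.1 i.2) *
      (E.bl a μ (k + 1) i.1 i.2 (z + E.S.jv i.1 i.2) - E.bl a μ (k + 1) i.1 i.2 z) := ⟨_, rfl⟩
  have hg2' : ∑ z, (hf z - g z) ^ 2 / lev E.q μ (k + 1) z ≤
      Cf / tim s k * (E.Ik μ k + E.Ek a μ k) := by rw [hhf]; exact hg2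
  have hn2' : ∑ z, hn' z ^ 2 / lev E.q μ (k + 1) z ≤
      Cn / tim s k * (if k = 0 then 0 else E.Ik μ (k - 1) + E.Ek a μ (k - 1)) := by
    rw [hhn]; exact hn
  have hv : ∀ z, lev E.q (E.Jop a μ) (k + 1) z = lev E.q μ (k + 1) z + E.ε * (hf z + hn' z) := by
    intro z
    rw [lev_Jop, hhf, hhn, ← sum_idx (E.K + 4) (fun j (θ : E.Θ) => E.S.wt s j θ *
      (E.bl a μ (k + 1) j θ (z + E.S.jv j θ) - E.bl a μ (k + 1) j θ z))]
    simp only
    rw [← Finset.sum_add_distrib]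
    congr 2
    refine Finset.sum_congr rfl (fun i _ => ?_)
    by_cases h : k = 0 ∨ k < (i.1 : ℕ)
    · rw [if_pos h, if_pos h]; ring
    · rw [if_neg h, if_neg h]; ring
  have hv0 : ∀ z, 0 ≤ lev E.q (E.Jop a μ) (k + 1) z := fun z => E.u_nonneg hJ (by omega) z
  have T := hell_tri (lev E.q μ (k + 1)) (lev E.q (E.Jop a μ) (k + 1))
    (fun z => lev E.q μ (k + 1) z + E.ε * g z) ψ hu
    (fun z => by have := mul_nonneg hε'.le (hg0 z); linarith) hv0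
  have A := hell_add (lev E.q μ (k + 1)) (fun z => E.ε * g z) ψ (fun z => (hu z).le)
    (fun z => mul_nonneg hε'.le (hg0 z)) hψ
  refine T.trans (add_le_add ?_ ?_)
  · refine Real.sqrt_le_sqrt (A.trans ?_)
    rw [← Finset.mul_sum]
    have := mul_le_mul_of_nonneg_left hg1 hε'.le
    linarith
  · -- the l2 part
    obtain ⟨P, hP⟩ : ∃ P : ℝ, P = if k = 0 then 0 else E.Ik μ (k - 1) + E.Ek a μ (k - 1) := ⟨_, rfl⟩
    rw [← hP] at hn2' ⊢
    have h1 : ∑ z, (lev E.q (E.Jop a μ) (k + 1) z - (lev E.q μ (k + 1) z + E.ε * g z)) ^ 2 /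
        lev E.q μ (k + 1) z ≤ E.ε ^ 2 * (2 * (∑ z, (hf z - g z) ^ 2 / lev E.q μ (k + 1) z
          + ∑ z, hn' z ^ 2 / lev E.q μ (k + 1) z)) := by
      rw [← Finset.sum_add_distrib, Finset.mul_sum, Finset.mul_sum]
      refine Finset.sum_le_sum (fun z _ => ?_)
      rw [hv z, ← add_div, ← mul_div_assoc, ← mul_div_assoc]
      refine div_le_div_of_nonneg_right ?_ (hu z).le
      have e : (lev E.q μ (k + 1) z + E.ε * (hf z + hn' z) - (lev E.q μ (k + 1) z + E.ε * g z)) =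
        E.ε * ((hf z - g z) + hn' z) := by ring
      rw [e, mul_pow]
      refine mul_le_mul_of_nonneg_left ?_ (sq_nonneg _)
      nlinarith [sq_nonneg ((hf z - g z) - hn' z)]
    have hA0 : 0 ≤ ∑ z, (hf z - g z) ^ 2 / lev E.q μ (k + 1) z :=
      Finset.sum_nonneg (fun z _ => div_nonneg (sq_nonneg _) (hu z).le)
    have hB0 : 0 ≤ ∑ z, hn' z ^ 2 / lev E.q μ (k + 1) z :=
      Finset.sum_nonneg (fun z _ => div_nonneg (sq_nonneg _) (hu z).le)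
    have hS0 : 0 ≤ E.Ik μ k + E.Ek a μ k := by
      have h3 := hA0.trans hg2'
      by_contra hneg
      push Not at hneg
      have : Cf / tim s k * (E.Ik μ k + E.Ek a μ k) < 0 :=
        mul_neg_of_pos_of_neg (by positivity) hneg
      linarith
    have hP0 : 0 ≤ P := by
      have h3 := hB0.trans hn2'
      by_contra hneg
      push Not at hneg
      have : Cn / tim s k * P < 0 := mul_neg_of_pos_of_neg (by positivity) hneg
      linarith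
    have h2 : ∑ z, (lev E.q (E.Jop a μ) (k + 1) z - (lev E.q μ (k + 1) z + E.ε * g z)) ^ 2 /
        lev E.q μ (k + 1) z ≤ (√(2 * (Cf + Cn)) * E.ε / √(tim s k)) ^ 2 *
          (E.Ik μ k + E.Ek a μ k + P) := by
      have e : (√(2 * (Cf + Cn)) * E.ε / √(tim s k)) ^ 2 =
          E.ε ^ 2 * (2 * ((Cf + Cn) / tim s k)) := by
        rw [div_pow, mul_pow, Real.sq_sqrt (by positivity), Real.sq_sqrt htk.le]; ring
      rw [e]
      refine h1.trans ?_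
      have h4 : ∑ z, (hf z - g z) ^ 2 / lev E.q μ (k + 1) z
          + ∑ z, hn' z ^ 2 / lev E.q μ (k + 1) z ≤
          (Cf + Cn) / tim s k * (E.Ik μ k + E.Ek a μ k + P) := by
        have h5 : 0 ≤ Cn / tim s k * (E.Ik μ k + E.Ek a μ k) := by positivity
        have h6 : 0 ≤ Cf / tim s k * P := by positivity
        calc _ ≤ Cf / tim s k * (E.Ik μ k + E.Ek a μ k) + Cn / tim s k * P :=
              add_le_add hg2' hn2'
          _ ≤ Cf / tim s k * (E.Ik μ k + E.Ek a μ k) + Cn / tim s k * P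
              + (Cn / tim s k * (E.Ik μ k + E.Ek a μ k) + Cf / tim s k * P) := by linarith
          _ = _ := by ring
      have h7 : 0 ≤ E.ε ^ 2 := sq_nonneg _
      calc _ ≤ E.ε ^ 2 * (2 * ((Cf + Cn) / tim s k * (E.Ik μ k + E.Ek a μ k + P))) := by gcongr
        _ = _ := by ring
    have h8 : 0 ≤ √(2 * (Cf + Cn)) * E.ε / √(tim s k) := by positivity
    calc _ ≤ √((√(2 * (Cf + Cn)) * E.ε / √(tim s k)) ^ 2 * (E.Ik μ k + E.Ek a μ k + P)) :=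
          Real.sqrt_le_sqrt h2
      _ = _ := by rw [Real.sqrt_mul (sq_nonneg _), Real.sqrt_sq h8]

end KD.I.F4
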